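import Pool.Agent.Lib.MP_424c76_an.ShTop

set_option autoImplicit false

open Polynomial

namespace Pool.Agent.Results.MP_424c76_an.Connected

open Pool.Agent.Lib.MP_424c76_an

/-- The shadow of every nonconstant polynomial is connected up to isolated points. -/
theorem result (P : ℂ[X]) (hP : 1 ≤ P.natDegree) :
    ∃ M ⊆ shadow P, IsConnected M ∧ (∀ r, P.IsRoot r ∨ (derivative P).IsRoot r → r ∈ M) ∧
      ∀ z ∈ shadow P, z ∉ M → ¬ AccPt z (Filter.principal (shadow P)) :=
  main hP

end Pool.Agent.Results.MP_424c76_an.Connected
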