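import Mathlib

set_option autoImplicit false

open Polynomial

namespace Pool.Agent.Results.MP_424c76_an.RhombusShadow

/-- `Q P n m` is the `m`-th derivative of `P ^ n`. -/
noncomputable def Q (P : ℂ[X]) (n m : ℕ) : ℂ[X] := derivative^[m] (P ^ n)

/-- The set `Z` of all complex zeros of all `Q P n m` with `n ≥ 1` and `0 ≤ m ≤ n * deg P`. -/
def zeroSet (P : ℂ[X]) : Set ℂ :=
  {z | ∃ n m : ℕ, 1 ≤ n ∧ m ≤ n * P.natDegree ∧ (Q P n m).IsRoot z}

/-- The shadow of `P`: the closure of `Z`. -/
def shadow (P : ℂ[X]) : Set ℂ := closure (zeroSet P)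

/-- The roots of `P` are `deg P` distinct points, none in the convex hull of the others. -/
def RootsInConvexPosition (P : ℂ[X]) : Prop :=
  P.roots.toFinset.card = P.natDegree ∧
    ∀ r : ℂ, P.IsRoot r → r ∉ convexHull ℝ ({z : ℂ | P.IsRoot z} \ {r})

/-- The roots of `P` are the vertices `c + a * exp (2 π i k / d)`, `0 ≤ k < d`, of a regular
`d`-gon, where `d = deg P` and `a ≠ 0`. -/
def RootsFormRegularPolygon (P : ℂ[X]) : Prop :=
  ∃ c a : ℂ, a ≠ 0 ∧ {z : ℂ | P.IsRoot z} =
    {z : ℂ | ∃ k : ℕ, k < P.natDegree ∧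
      z = c + a * Complex.exp (2 * Real.pi * Complex.I * k / P.natDegree)}

/-- A closed domain: the closure of a nonempty connected open subset of the plane. -/
def IsClosedDomain (S : Set ℂ) : Prop :=
  ∃ U : Set ℂ, IsOpen U ∧ U.Nonempty ∧ IsConnected U ∧ S = closure U

/-- The invariant: `F` is even or odd and all of its zeros lie on the two coordinate axes. -/
def Good (F : ℂ[X]) : Prop :=
  (∃ c : ℂ, F.comp (-X) = C c * F) ∧ ∀ z : ℂ, F.IsRoot z → z.re * z.im = 0

lemma im_sum_aux (z : ℂ) (s : Multiset ℂ) (hs : ∀ r ∈ s, r.re * r.im = 0) :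
    ((s.map fun r => 1 / (z ^ 2 - r ^ 2)).sum).im =
      -(2 * (z.re * z.im)) * (s.map fun r => 1 / Complex.normSq (z ^ 2 - r ^ 2)).sum := by
  induction s using Multiset.induction_on with
  | empty => simp
  | cons a s ih =>
    have ha : a.re * a.im = 0 := hs a (Multiset.mem_cons_self a s)
    have ih' := ih (fun r hr => hs r (Multiset.mem_cons_of_mem hr))
    rw [Multiset.map_cons, Multiset.sum_cons, Multiset.map_cons, Multiset.sum_cons,
      Complex.add_im, ih', mul_add]
    congr 1
    rw [one_div, Complex.inv_im]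
    have : (z ^ 2 - a ^ 2).im = 2 * (z.re * z.im) := by
      simp only [sq, Complex.sub_im, Complex.mul_im]
      nlinarith [ha]
    rw [this]
    ring

lemma sq_sub_ne (z r : ℂ) (hr : r.re * r.im = 0) (hz : z.re * z.im ≠ 0) :
    z ^ 2 - r ^ 2 ≠ 0 := by
  intro h
  have := congrArg Complex.im h
  simp only [sq, Complex.sub_im, Complex.mul_im, Complex.zero_im] at this
  apply hz
  nlinarith [hr]

lemma good_derivative (F : ℂ[X]) (hdeg : 0 < F.natDegree) (hF : Good F) :
    Good (derivative F) := by
  obtain ⟨⟨c, hc⟩, hroots⟩ := hF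
  have hF0 : F ≠ 0 := by
    rintro rfl
    simp at hdeg
  have hd : (derivative F).comp (-X) = C (-c) * derivative F := by
    have h := congrArg derivative hc
    rw [derivative_comp, derivative_mul, derivative_C] at h
    simp only [derivative_neg, derivative_X, zero_mul, zero_add] at h
    rw [map_neg]
    linear_combination (-1 : ℂ[X]) * h
  refine ⟨⟨-c, hd⟩, ?_⟩
  intro z hz
  by_contra hzz
  have hzz' : (-z).re * (-z).im ≠ 0 := by simpa using hzz
  have hFz : F.eval z ≠ 0 := fun h => hzz (hroots z h)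
  have hFnz : F.eval (-z) ≠ 0 := fun h => hzz' (hroots (-z) h)
  have hsp : F.Splits := IsAlgClosed.splits F
  have h1 := hsp.eval_derivative_div_eval_of_ne_zero hFz
  have h2 := hsp.eval_derivative_div_eval_of_ne_zero hFnz
  have hz0 : (derivative F).eval z = 0 := hz
  have hnz0 : (derivative F).eval (-z) = 0 := by
    have := congrArg (eval z) hd
    rw [eval_comp, eval_mul, hz0] at this
    simpa using this
  rw [hz0, zero_div] at h1
  rw [hnz0, zero_div] at h2
  have hr : ∀ r ∈ F.roots, r.re * r.im = 0 := fun r hr => hroots r (isRoot_of_mem_roots hr)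
  have hzne : z ≠ 0 := by
    rintro rfl
    simp at hzz
  have h3 : (F.roots.map fun r => 1 / (z - r)).sum - (F.roots.map fun r => 1 / (-z - r)).sum
      = 2 * z * (F.roots.map fun r => 1 / (z ^ 2 - r ^ 2)).sum := by
    rw [← Multiset.sum_map_sub, ← Multiset.sum_map_mul_left]
    refine congrArg Multiset.sum (Multiset.map_congr rfl fun r hr' => ?_)
    have hne := sq_sub_ne z r (hr r hr') hzz
    have e : z ^ 2 - r ^ 2 = (z - r) * (z + r) := by ring
    have ha : z - r ≠ 0 := fun h => hne (by rw [e, h, zero_mul])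
    have hb : z + r ≠ 0 := fun h => hne (by rw [e, h, mul_zero])
    have hb' : -z - r ≠ 0 := fun h => hb (by linear_combination -h)
    rw [e]
    field_simp
    ring
  rw [← h1, ← h2, sub_zero] at h3
  have h4 : (F.roots.map fun r => 1 / (z ^ 2 - r ^ 2)).sum = 0 := by
    rcases mul_eq_zero.mp h3.symm with h | h
    · exact absurd h (mul_ne_zero two_ne_zero hzne)
    · exact h
  have h5 := im_sum_aux z F.roots hr
  rw [h4, Complex.zero_im] at h5
  have hpos : 0 < (F.roots.map fun r => 1 / Complex.normSq (z ^ 2 - r ^ 2)).sum := by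
    have hne : F.roots ≠ 0 := by
      intro h0
      have := hsp.natDegree_eq_card_roots
      rw [h0] at this
      simp at this
      omega
    obtain ⟨r0, hr0⟩ := Multiset.exists_mem_of_ne_zero hne
    obtain ⟨t, ht⟩ := Multiset.exists_cons_of_mem hr0
    rw [ht, Multiset.map_cons, Multiset.sum_cons]
    apply add_pos_of_pos_of_nonneg
    · exact one_div_pos.mpr (Complex.normSq_pos.mpr (sq_sub_ne z r0 (hr r0 hr0) hzz))
    · apply Multiset.sum_nonneg
      intro x hx
      obtain ⟨r, -, rfl⟩ := Multiset.mem_map.mp hx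
      exact one_div_nonneg.mpr (Complex.normSq_nonneg _)
  rcases mul_eq_zero.mp h5.symm with h | h
  · apply hzz
    linarith
  · exact absurd h hpos.ne'

lemma good_iterate (F : ℂ[X]) (hF : Good F) (m : ℕ) (hm : m ≤ F.natDegree) :
    Good (derivative^[m] F) ∧ (derivative^[m] F).natDegree = F.natDegree - m := by
  induction m with
  | zero => exact ⟨hF, rfl⟩
  | succ m ih =>
    obtain ⟨h1, h2⟩ := ih (by omega)
    rw [Function.iterate_succ_apply']
    have hpos : 0 < (derivative^[m] F).natDegree := by omega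
    refine ⟨good_derivative _ hpos h1, ?_⟩
    have := natDegree_eq_of_degree_eq_some (degree_derivative hpos.ne')
    rw [this, h2]
    omega

lemma good_pow (F : ℂ[X]) (hF : Good F) (n : ℕ) (hn : 1 ≤ n) : Good (F ^ n) := by
  obtain ⟨⟨c, hc⟩, hroots⟩ := hF
  refine ⟨⟨c ^ n, ?_⟩, ?_⟩
  · rw [pow_comp, hc, mul_pow, map_pow]
  · intro z hz
    apply hroots z
    have : (F.eval z) ^ n = 0 := by
      rw [← eval_pow]
      exact hz
    exact pow_eq_zero_iff (by omega) |>.mp this

/-- The rhombus polynomial with roots `1, -1, 2i, -2i`. -/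
noncomputable def rhombus : ℂ[X] :=
  (X - C 1) * (X - C (-1)) * (X - C (2 * Complex.I)) * (X - C (-(2 * Complex.I)))

lemma rhombus_isRoot (z : ℂ) :
    rhombus.IsRoot z ↔ z = 1 ∨ z = -1 ∨ z = 2 * Complex.I ∨ z = -(2 * Complex.I) := by
  simp only [rhombus, IsRoot, eval_mul, eval_sub, eval_X, eval_C, mul_eq_zero, sub_eq_zero,
    or_assoc]

lemma rhombus_natDegree : rhombus.natDegree = 4 := by
  unfold rhombus
  compute_degree!

lemma rhombus_ne_zero : rhombus ≠ 0 := by
  intro h
  have := rhombus_natDegree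
  rw [h] at this
  simp at this

lemma rhombus_good : Good rhombus := by
  refine ⟨⟨1, ?_⟩, ?_⟩
  · simp only [rhombus, mul_comp, sub_comp, X_comp, C_comp, map_neg, neg_comp, map_one, one_comp]
    ring
  · intro z hz
    rcases (rhombus_isRoot z).mp hz with rfl | rfl | rfl | rfl <;> simp

lemma zeroSet_subset : zeroSet rhombus ⊆ {z : ℂ | z.re * z.im = 0} := by
  rintro z ⟨n, m, hn, hm, hz⟩
  have h1 := good_pow rhombus rhombus_good n hn
  have h2 : m ≤ (rhombus ^ n).natDegree := by rw [natDegree_pow]; exact hm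
  exact (good_iterate _ h1 m h2).1.2 z hz

lemma shadow_subset : shadow rhombus ⊆ {z : ℂ | z.re * z.im = 0} := by
  apply closure_minimal zeroSet_subset
  exact isClosed_eq (Complex.continuous_re.mul Complex.continuous_im) continuous_const

lemma interior_cross : interior {z : ℂ | z.re * z.im = 0} = ∅ := by
  rw [Set.eq_empty_iff_forall_notMem]
  intro z hz
  rw [mem_interior_iff_mem_nhds, Metric.mem_nhds_iff] at hz
  obtain ⟨ε, hε, hb⟩ := hz
  have key : ∀ s t : ℝ, |s| < ε / 2 → |t| < ε / 2 → (z.re + s) * (z.im + t) = 0 := by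
    intro s t hs ht
    have hmem : z + (s + t * Complex.I) ∈ Metric.ball z ε := by
      rw [Metric.mem_ball, dist_eq_norm, add_sub_cancel_left]
      have := Complex.norm_le_abs_re_add_abs_im ((s : ℂ) + t * Complex.I)
      simp at this
      linarith
    have := hb hmem
    simpa using this
  have a1 : |ε / 4| < ε / 2 := by rw [abs_of_pos (by linarith)]; linarith
  have a0 : |(0 : ℝ)| < ε / 2 := by rw [abs_zero]; linarith
  have k1 := key 0 0 a0 a0
  have k2 := key (ε / 4) 0 a1 a0
  have k3 := key 0 (ε / 4) a0 a1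
  have k4 := key (ε / 4) (ε / 4) a1 a1
  have : (ε / 4) * (ε / 4) = 0 := by nlinarith
  nlinarith

lemma interior_shadow : interior (shadow rhombus) = ∅ := by
  apply Set.eq_empty_of_subset_empty
  rw [← interior_cross]
  exact interior_mono shadow_subset

lemma not_mem_hull (S : Set ℂ) (r : ℂ) (α β : ℝ) (hS : ∀ z ∈ S, α * z.re + β * z.im ≤ 0)
    (hr : 0 < α * r.re + β * r.im) : r ∉ convexHull ℝ S := by
  intro h
  have hconv : Convex ℝ {z : ℂ | α * z.re + β * z.im ≤ 0} := by
    intro x hx y hy a b ha hb hab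
    simp only [Set.mem_ofPred_eq, Complex.add_re, Complex.add_im, Complex.smul_re,
      Complex.smul_im, smul_eq_mul] at *
    nlinarith [mul_nonneg ha (neg_nonneg.mpr hx), mul_nonneg hb (neg_nonneg.mpr hy)]
  have : α * r.re + β * r.im ≤ 0 := convexHull_min hS hconv h
  linarith

lemma rhombus_convex : RootsInConvexPosition rhombus := by
  refine ⟨?_, ?_⟩
  · have : rhombus.roots.toFinset = {1, -1, 2 * Complex.I, -(2 * Complex.I)} := by
      ext z
      rw [Multiset.mem_toFinset, mem_roots rhombus_ne_zero, rhombus_isRoot]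
      simp
    rw [this, rhombus_natDegree]
    rw [Finset.card_insert_of_notMem, Finset.card_insert_of_notMem, Finset.card_pair]
    · norm_num [Complex.ext_iff]
    · norm_num [Complex.ext_iff]
    · norm_num [Complex.ext_iff]
  · intro r hr
    rcases (rhombus_isRoot r).mp hr with rfl | rfl | rfl | rfl
    · apply not_mem_hull _ _ 1 0
      · rintro z ⟨hz, hz'⟩
        rcases (rhombus_isRoot z).mp hz with rfl | rfl | rfl | rfl
        · exact absurd rfl hz'
        all_goals simp
      · simp
    · apply not_mem_hull _ _ (-1) 0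
      · rintro z ⟨hz, hz'⟩
        rcases (rhombus_isRoot z).mp hz with rfl | rfl | rfl | rfl
        · simp
        · exact absurd rfl hz'
        all_goals simp
      · simp
    · apply not_mem_hull _ _ 0 1
      · rintro z ⟨hz, hz'⟩
        rcases (rhombus_isRoot z).mp hz with rfl | rfl | rfl | rfl
        · simp
        · simp
        · exact absurd rfl hz'
        · simp
      · simp
    · apply not_mem_hull _ _ 0 (-1)
      · rintro z ⟨hz, hz'⟩
        rcases (rhombus_isRoot z).mp hz with rfl | rfl | rfl | rfl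
        · simp
        · simp
        · simp
        · exact absurd rfl hz'
      · simp

lemma rhombus_not_regular : ¬ RootsFormRegularPolygon rhombus := by
  rintro ⟨c, a, -, h⟩
  have key : ∀ z : ℂ, rhombus.IsRoot z → Complex.normSq (z - c) = Complex.normSq a := by
    intro z hz
    have hz' : z ∈ {z : ℂ | rhombus.IsRoot z} := hz
    rw [h] at hz'
    obtain ⟨k, -, rfl⟩ := hz'
    rw [add_sub_cancel_left, map_mul]
    have e : (2 * Real.pi * Complex.I * k / rhombus.natDegree : ℂ)
        = ((2 * Real.pi * k / rhombus.natDegree : ℝ) : ℂ) * Complex.I := by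
      push_cast
      ring
    rw [e, Complex.normSq_eq_norm_sq (Complex.exp _), Complex.norm_exp_ofReal_mul_I]
    simp
  have k1 := key 1 ((rhombus_isRoot _).mpr (Or.inl rfl))
  have k2 := key (-1) ((rhombus_isRoot _).mpr (Or.inr (Or.inl rfl)))
  have k3 := key (2 * Complex.I) ((rhombus_isRoot _).mpr (Or.inr (Or.inr (Or.inl rfl))))
  have k4 := key (-(2 * Complex.I)) ((rhombus_isRoot _).mpr (Or.inr (Or.inr (Or.inr rfl))))
  simp [Complex.normSq_apply] at k1 k2 k3 k4
  nlinarith

theorem result :
    ∃ P : ℂ[X], 3 ≤ P.natDegree ∧ RootsInConvexPosition P ∧ ¬ RootsFormRegularPolygon P ∧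
      interior (shadow P) = ∅ ∧ ¬ IsClosedDomain (shadow P) := by
  refine ⟨rhombus, by rw [rhombus_natDegree]; norm_num, rhombus_convex, rhombus_not_regular,
    interior_shadow, ?_⟩
  rintro ⟨U, hU, ⟨z, hz⟩, -, hS⟩
  have : U ⊆ interior (shadow rhombus) := by
    apply interior_maximal _ hU
    rw [hS]
    exact subset_closure
  rw [interior_shadow] at this
  exact this hz

end Pool.Agent.Results.MP_424c76_an.RhombusShadow
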